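import Pool.Agent.Y60.DC.Stm4

/-! Job DCN-FIN, part 1: homomorphisms which fix the transvections with a given axis. -/

set_option autoImplicit false
set_option linter.unusedSectionVars false
set_option linter.unusedVariables false

namespace Pool.Agent.Y195.DCN

open Matrix Pool.Agent.Y60.DC

variable {F : Type} [Field F] {n : ℕ}

theorem det_tv (v φ : Fin n → F) (h : φ ⬝ᵥ v = 0) : (tv v φ).det = 1 := by
  rw [tv, vecMulVec_eq Unit, det_one_add_replicateCol_mul_replicateRow, h, add_zero]

/-- transvections as elements of `SL_n(F)` -/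
def tS (v φ : Fin n → F) (h : φ ⬝ᵥ v = 0) : SLn n F := ⟨tv v φ, det_tv v φ h⟩

theorem coe_tS (v φ : Fin n → F) (h : φ ⬝ᵥ v = 0) : ((tS v φ h : SLn n F) : Mn n F) = tv v φ :=
  rfl

theorem vv (u v w x : Fin n → F) : vecMulVec u v * vecMulVec w x = (v ⬝ᵥ w) • vecMulVec u x := by
  rw [vecMulVec_mul_vecMulVec, vecMulVec_smul]

theorem tv_mul (u v w x : Fin n → F) : tv u v * tv w x =
    1 + vecMulVec u v + vecMulVec w x + (v ⬝ᵥ w) • vecMulVec u x := by
  rw [tv, tv, ← vv]
  noncomm_ring

/-- the braid identity in a ring -/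
theorem braid {x y : Mn n F} {c : F} (h1 : x * x = 0) (h2 : y * y = 0) (h3 : x * y * x = c • x)
    (h4 : y * x * y = c • y) : (1 + x) * (1 + y) * (1 + x) - (1 + y) * (1 + x) * (1 + y) =
      (1 + c) • (x - y) := by
  have e1 : (1 + x) * (1 + y) * (1 + x) = 1 + x + x + y + x * y + y * x + x * x + x * y * x := by
    noncomm_ring
  have e2 : (1 + y) * (1 + x) * (1 + y) = 1 + x + y + y + x * y + y * x + y * y + y * x * y := by
    noncomm_ring
  rw [e1, e2, h1, h2, h3, h4]
  module

/-- the commutator identity in a ring -/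
theorem comm4 {x y : Mn n F} (h1 : x * x = 0) (h2 : y * y = 0) (h3 : y * x = 0) :
    (1 + x) * (1 + y) * (1 - x) * (1 - y) = 1 + x * y := by
  have e1 : (1 + x) * (1 + y) * (1 - x) * (1 - y) = 1 + x * y - x * x - y * y - y * x +
      x * x * y + y * x * y - x * (y * x) - x * (y * y) + x * (y * x) * y := by
    noncomm_ring
  rw [e1, h1, h2, h3]
  simp

/-- decomposition of diagonal matrices (from H94R2/BQ/N.lean) -/
theorem diag_two (i j : Fin n) (hij : i ≠ j) (d : F) (hd : d ≠ 0) :
    Matrix.diagonal (fun a => if a = i then d else if a = j then d⁻¹ else 1) =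
      Matrix.transvection i j d * (Matrix.transvection j i (-d⁻¹) * (Matrix.transvection i j d *
        (Matrix.transvection i j (-1) * (Matrix.transvection j i 1 *
          (Matrix.transvection i j (-1) * (1 : Matrix (Fin n) (Fin n) F)))))) := by
  ext a b
  have hD : (Matrix.diagonal (fun a => if a = i then d else if a = j then d⁻¹ else 1) :
      Matrix (Fin n) (Fin n) F) a b = (if a = i then d else if a = j then d⁻¹ else 1) *
        (1 : Matrix (Fin n) (Fin n) F) a b := by
    rw [Matrix.diagonal_apply, Matrix.one_apply]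
    split_ifs <;> simp
  rw [hD]
  generalize (1 : Matrix (Fin n) (Fin n) F) = I
  by_cases hi : a = i
  · subst hi
    simp only [Matrix.transvection_mul_apply_same, Matrix.transvection_mul_apply_of_ne _ _ _ _ hij,
      Matrix.transvection_mul_apply_of_ne _ _ _ _ hij.symm, if_true]
    field_simp
    ring
  · by_cases hj : a = j
    · subst hj
      simp only [Matrix.transvection_mul_apply_same,
        Matrix.transvection_mul_apply_of_ne _ _ _ _ hij,
        Matrix.transvection_mul_apply_of_ne _ _ _ _ hij.symm, if_true, hi, if_false]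
      field_simp
      ring
    · simp only [Matrix.transvection_mul_apply_of_ne _ _ _ _ hi,
        Matrix.transvection_mul_apply_of_ne _ _ _ _ hj, hi, hj, if_false, one_mul]

theorem diag2n_eq {i j : Fin n} (hij : i ≠ j) {c : F} (hc : c ≠ 0) :
    SpecialLinearGroup.diag2n hij c hc =
      SpecialLinearGroup.transvection hij c * SpecialLinearGroup.transvection hij.symm (-c⁻¹) *
      SpecialLinearGroup.transvection hij c * SpecialLinearGroup.transvection hij (-1) *
      SpecialLinearGroup.transvection hij.symm 1 * SpecialLinearGroup.transvection hij (-1) := by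
  apply Subtype.ext
  rw [SpecialLinearGroup.diag2n_coe, diag_two i j hij c hc, mul_one]
  simp only [SpecialLinearGroup.coe_mul, mul_assoc]
  rfl

/-- a homomorphism to the matrices which fixes all elementary transvections is the inclusion -/
theorem eq_id (hn : 3 ≤ n) (D : SLn n F →* Mn n F)
    (h : ∀ (i j : Fin n) (hij : i ≠ j) (t : F),
      D (SpecialLinearGroup.transvection hij t) = Matrix.transvection i j t) (A : SLn n F) :
    D A = A.1 := by
  haveI : Nontrivial (Fin n) := ⟨⟨0, by omega⟩, ⟨1, by omega⟩, by simp⟩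
  have hm : ∀ A B : SLn n F, D A = A.1 → D B = B.1 → D (A * B) = (A * B).1 := by
    intro A B hA hB
    rw [map_mul, hA, hB]
    rfl
  refine SpecialLinearGroup.diagonal_transvection_induction' (fun A : SLn n F => D A = A.1) A
    ?_ (fun i j hij a => h i j hij a) hm
  intro i j hij c hc
  rw [diag2n_eq hij hc]
  exact hm _ _ (hm _ _ (hm _ _ (hm _ _ (hm _ _ (h i j hij _) (h j i _ _)) (h i j hij _))
    (h i j hij _)) (h j i _ _)) (h i j hij _)

theorem vmv_single (i j : Fin n) (s : F) :
    vecMulVec (s • Pi.single i (1 : F)) (Pi.single j (1 : F)) = Matrix.single i j s := by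
  ext a b
  rw [vecMulVec_apply, Matrix.single_apply, Pi.smul_apply, Pi.single_apply, Pi.single_apply]
  by_cases h1 : a = i <;> by_cases h2 : b = j <;> simp [h1, h2, Ne.symm, eq_comm]
  all_goals simp_all [eq_comm]

theorem tv_single (i j : Fin n) (s : F) :
    tv (s • Pi.single i (1 : F)) (Pi.single j (1 : F)) = Matrix.transvection i j s := by
  rw [tv, vmv_single, Matrix.transvection]

theorem tv_single' (i j : Fin n) (s : F) :
    tv (Pi.single i (1 : F)) (s • Pi.single j (1 : F)) = Matrix.transvection i j s := by
  rw [← tv_single, tv, tv, vecMulVec_smul, smul_vecMulVec]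

end Pool.Agent.Y195.DCN
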